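import Pool.Agent.helper81.EP.SpecK

set_option autoImplicit false

namespace Pool.Agent.EP

theorem KE_two_mul_dvd {d : ℕ} (hd : d % 2 = 1) {x : ℤ} (hx : x % 2 = 0) :
    (d : ℤ) ∣ x ↔ ((2 * d : ℕ) : ℤ) ∣ x := by
  constructor
  · intro h
    have h2 : (2 : ℤ) ∣ x := Int.dvd_of_emod_eq_zero hx
    have hco : IsCoprime (2 : ℤ) (d : ℤ) := by
      have : Nat.Coprime 2 d := by
        rw [Nat.coprime_two_left]
        exact Nat.odd_iff.mpr hd
      exact_mod_cast this.isCoprime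
    have := hco.mul_dvd h2 h
    push_cast
    exact this
  · intro h
    refine dvd_trans ?_ h
    push_cast
    exact Dvd.intro_left 2 rfl

theorem KE_cls (d o w : ℕ) (hd : d % 2 = 1) (ho : o % 2 = 1) (hod : o < d) :
    (w % (2 * d) = o ∨ w % (2 * d) = 2 * d - o) ↔
      (w % 2 = 1 ∧ ((d : ℤ) ∣ (w : ℤ) - o ∨ (d : ℤ) ∣ (w : ℤ) + o)) := by
  have hdpos : 0 < d := by omega
  constructor
  · intro h
    have hw : w % 2 = (w % (2 * d)) % 2 := by
      rw [Nat.mod_mod_of_dvd w (Dvd.intro d rfl)]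
    have hdm := Nat.div_add_mod w (2 * d)
    rcases h with h | h
    · refine ⟨by rw [hw, h]; exact ho, Or.inl ?_⟩
      rw [h] at hdm
      refine ⟨2 * (w / (2 * d) : ℕ), ?_⟩
      have : (w : ℤ) = 2 * d * (w / (2 * d) : ℕ) + o := by exact_mod_cast hdm.symm
      rw [this]; ring
    · refine ⟨by rw [hw, h]; omega, Or.inr ?_⟩
      rw [h] at hdm
      refine ⟨2 * (w / (2 * d) : ℕ) + 2, ?_⟩
      have h1 : 2 * d * (w / (2 * d)) + 2 * d = w + o := by omega
      have : (2 : ℤ) * d * (w / (2 * d) : ℕ) + 2 * d = w + o := by exact_mod_cast h1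
      rw [← this]; ring
  · rintro ⟨hw, h | h⟩
    · left
      rw [KE_two_mul_dvd hd (by omega)] at h
      have h1 : (w : ℤ) ≡ (o : ℤ) [ZMOD ((2 * d : ℕ) : ℤ)] := by
        apply Int.ModEq.symm
        rw [Int.modEq_iff_dvd]
        exact h
      have h2 : w ≡ o [MOD (2 * d)] := (Int.natCast_modEq_iff).mp h1
      have h3 : w % (2 * d) = o % (2 * d) := h2
      rw [h3, Nat.mod_eq_of_lt (by omega)]
    · right
      rw [KE_two_mul_dvd hd (by omega)] at h
      have h1 : (w : ℤ) ≡ ((2 * d - o : ℕ) : ℤ) [ZMOD ((2 * d : ℕ) : ℤ)] := by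
        apply Int.ModEq.symm
        rw [Int.modEq_iff_dvd]
        have e : (w : ℤ) - ((2 * d - o : ℕ) : ℤ) = (w + o) - ((2 * d : ℕ) : ℤ) := by
          rw [Nat.cast_sub (by omega)]; ring
        rw [e]
        exact dvd_sub h (dvd_refl _)
      have h2 : w ≡ 2 * d - o [MOD (2 * d)] := (Int.natCast_modEq_iff).mp h1
      have h3 : w % (2 * d) = (2 * d - o) % (2 * d) := h2
      rw [h3, Nat.mod_eq_of_lt (by omega)]

theorem KE (hKD : KD_stmt) : KE_stmt := by
  intro l i hl hl12 hi s hs b m c hN hc2 hc0 hcd hcs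
  obtain ⟨hm1, hN1, hN2⟩ := hN
  set d := l ^ i with hdd
  have hlodd : l % 2 = 1 := by omega
  have hd : d % 2 = 1 := by
    rw [hdd, Nat.pow_mod, hlodd, one_pow]; rfl
  have ho : (d - c) % 2 = 1 := by omega
  have hod : d - c < d := by omega
  have hset : (Finset.range (2 ^ b)).filter
        (fun w => w % 2 = 1 ∧ 3 * w ^ 2 < 4 ^ b ∧ d ∣ 4 ^ b - 3 * w ^ 2) =
      (Finset.range (4 * m)).filter
        (fun w => w % (2 * d) = (d - c) ∨ w % (2 * d) = 2 * d - (d - c)) := by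
    ext w
    simp only [Finset.mem_filter, Finset.mem_range]
    have hcls := KE_cls d (d - c) w hd ho hod
    have hsb := hs b w
    have hlid : ((l : ℤ) ^ i) = (d : ℤ) := by rw [hdd]; push_cast; rfl
    rw [hlid] at hsb hcs
    have hoc : ((d - c : ℕ) : ℤ) = d - c := by
      rw [Nat.cast_sub hcd.le]
    have hcls2 : ((d : ℤ) ∣ (w : ℤ) - (d - c : ℕ) ∨ (d : ℤ) ∣ (w : ℤ) + (d - c : ℕ)) ↔
        (d : ℤ) ∣ 4 ^ b - 3 * (w : ℤ) ^ 2 := by
      rw [hsb, hoc]
      have a1 : ((d : ℤ) ∣ (w : ℤ) - (d - c)) ↔ (d : ℤ) ∣ w + c := by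
        have : (w : ℤ) - (d - c) = (w + c) - d := by ring
        rw [this]
        exact dvd_sub_self_right
      have a2 : ((d : ℤ) ∣ (w : ℤ) + (d - c)) ↔ (d : ℤ) ∣ w - c := by
        have : (w : ℤ) + (d - c) = (w - c) + d := by ring
        rw [this]
        exact dvd_add_self_right
      rw [a1, a2]
      rcases hcs with h | h
      · have b1 : ((d : ℤ) ∣ (w : ℤ) + c) ↔ (d : ℤ) ∣ w + 2 ^ b * s := by
          have : (w : ℤ) + c = (w + 2 ^ b * s) + (c - 2 ^ b * s) := by ring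
          rw [this]; exact dvd_add_left h
        have b2 : ((d : ℤ) ∣ (w : ℤ) - c) ↔ (d : ℤ) ∣ w - 2 ^ b * s := by
          have : (w : ℤ) - c = (w - 2 ^ b * s) - (c - 2 ^ b * s) := by ring
          rw [this]; exact dvd_sub_left h
        rw [b1, b2]; exact or_comm
      · have b1 : ((d : ℤ) ∣ (w : ℤ) + c) ↔ (d : ℤ) ∣ w - 2 ^ b * s := by
          have : (w : ℤ) + c = (w - 2 ^ b * s) + (c + 2 ^ b * s) := by ring
          rw [this]; exact dvd_add_left h
        have b2 : ((d : ℤ) ∣ (w : ℤ) - c) ↔ (d : ℤ) ∣ w + 2 ^ b * s := by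
          have : (w : ℤ) - c = (w + 2 ^ b * s) - (c + 2 ^ b * s) := by ring
          rw [this]; exact dvd_sub_left h
        rw [b1, b2]
    have hlt : w % 2 = 1 → (3 * w ^ 2 < 4 ^ b ↔ w < 4 * m) := by
      intro hw
      constructor
      · intro h
        by_contra hge
        have h1 : 4 * m + 1 ≤ w := by omega
        have h2 : (4 * m + 1) ^ 2 ≤ w ^ 2 := Nat.pow_le_pow_left h1 2
        omega
      · intro h
        have h1 : w ≤ 4 * m - 1 := by omega
        have h2 : w ^ 2 ≤ (4 * m - 1) ^ 2 := Nat.pow_le_pow_left h1 2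
        omega
    have h2b : w % 2 = 1 → w < 4 * m → w < 2 ^ b := by
      intro hw h
      have h1 : 3 * w ^ 2 < 4 ^ b := (hlt hw).mpr h
      by_contra hge
      have h2 : (2 ^ b) ^ 2 ≤ w ^ 2 := Nat.pow_le_pow_left (not_lt.mp hge) 2
      have h3 : (2 ^ b) ^ 2 = 4 ^ b := by
        rw [← pow_mul, mul_comm, pow_mul]; norm_num
      rw [h3] at h2
      have h4 : 0 < 4 ^ b := by positivity
      omega
    constructor
    · rintro ⟨hwb, hw2, hw3, hwd⟩
      refine ⟨(hlt hw2).mp hw3, hcls.mpr ⟨hw2, hcls2.mpr ?_⟩⟩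
      have := Int.natCast_dvd_natCast.mpr hwd
      rw [Nat.cast_sub hw3.le] at this
      push_cast at this
      exact this
    · rintro ⟨hw4, hww⟩
      obtain ⟨hw2, hwd⟩ := hcls.mp hww
      have hw3 := (hlt hw2).mpr hw4
      refine ⟨h2b hw2 hw4, hw2, hw3, ?_⟩
      have h5 := hcls2.mp hwd
      rw [← Int.natCast_dvd_natCast, Nat.cast_sub hw3.le]
      push_cast
      exact h5
  have hKD' := hKD d (d - c) (4 * m) hd ho hod (by omega)
  have hNK : NK d b = ((Finset.range (4 * m)).filter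
        (fun w => w % (2 * d) = (d - c) ∨ w % (2 * d) = 2 * d - (d - c))).card := by
    unfold NK
    rw [hset]
  rw [hNK, ← Nat.not_odd_iff_even, hKD']
  have hdis : dis (4 * m) (2 * d) % 2 = 0 := by
    unfold dis
    have h1 : (4 * m) % (2 * d) % 2 = 0 := by
      rw [Nat.mod_mod_of_dvd _ (Dvd.intro d rfl)]
      omega
    have h2 : (4 * m) % (2 * d) < 2 * d := Nat.mod_lt _ (by omega)
    rcases min_choice ((4 * m) % (2 * d)) (2 * d - (4 * m) % (2 * d)) with h | h <;> rw [h] <;> omega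
  omega

end Pool.Agent.EP
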