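import Pool.Agent.helper7.EP.SpecA

set_option autoImplicit false

open Finset PowerSeries

noncomputable section

namespace Pool.Agent.EP

theorem WKP_char : CharP KK 2 := by
  have h : Function.Injective (algebraMap (ZMod 2) KK) := (algebraMap (ZMod 2) KK).injective
  exact charP_of_injective_algebraMap h 2

theorem WKP_two : ∀ c : ZMod 2, c = 0 ∨ c = 1 := by decide

theorem WKP (hWM : WM_stmt) : WKP_stmt := by
  have hvv : ww * vvx = 1 := hWM.2
  have := WKP_char
  have : Fact (Nat.Prime 2) := ⟨Nat.prime_two⟩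
  intro a f ha hf
  have h4 : 4 ≤ 2 ^ a := by
    calc 4 = 2 ^ 2 := by norm_num
      _ ≤ 2 ^ a := Nat.pow_le_pow_right (by norm_num) ha
  unfold WW at hf
  induction hf using Submodule.span_induction with
  | mem x hx =>
    obtain ⟨i, hi, rfl⟩ := hx
    have h5 : 4 ≤ i * 2 ^ a := by nlinarith
    have h6 : i * 2 ^ a = (i * 2 ^ a - 3) + 3 := by omega
    have h7 : (ww ^ i) ^ (2 ^ a) * vvx ^ 3 = ww ^ (i * 2 ^ a - 3) := by
      rw [← pow_mul, h6, pow_add, mul_assoc, ← mul_pow, hvv, one_pow, mul_one]
      simp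
    rw [h7]
    exact Submodule.subset_span ⟨i * 2 ^ a - 3, by omega, rfl⟩
  | zero =>
    rw [zero_pow (by positivity), zero_mul]
    exact Submodule.zero_mem _
  | add x y _ _ hx hy =>
    rw [add_pow_char_pow, add_mul]
    exact Submodule.add_mem _ hx hy
  | smul c x _ hx =>
    have hc := WKP_two c
    rcases hc with rfl | rfl
    · rw [zero_smul, zero_pow (by positivity), zero_mul]
      exact Submodule.zero_mem _
    · rw [one_smul]; exact hx

end Pool.Agent.EP
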